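import Pool.Agent.TH388.CVX.Lat

/-! A finite, convex-closed symmetric set of integer points is the set of integer points of a
symmetric convex body (helper388). -/

set_option autoImplicit false
open scoped Pointwise

namespace TH388.CVX

lemma closed_of_integers {r : ℕ} (G : Set (Fin r → ℤ)) : IsClosed (cst '' G) := by
  refine Metric.isClosed_of_pairwise_le_dist (ε := 1) one_pos ?_
  rintro _ ⟨x, -, rfl⟩ _ ⟨y, -, rfl⟩ hne
  have hxy : x ≠ y := fun h => hne (by rw [h])
  obtain ⟨i, hi⟩ := Function.ne_iff.1 hxy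
  have h1 : (1 : ℝ) ≤ |(x i : ℝ) - y i| := by
    have : (1 : ℤ) ≤ |x i - y i| := Int.one_le_abs (sub_ne_zero.2 hi)
    exact_mod_cast this
  calc (1 : ℝ) ≤ |(x i : ℝ) - y i| := h1
    _ = dist (cst x i) (cst y i) := by rw [Real.dist_eq]; rfl
    _ ≤ dist (cst x) (cst y) := dist_le_pi_dist _ _ _

/-- the body -/
lemma exists_body {r : ℕ} (F : Set (Fin r → ℤ)) (hF : F.Finite) (h0 : (0 : Fin r → ℤ) ∈ F)
    (hs : ∀ x ∈ F, -x ∈ F)
    (hconv : ∀ x : Fin r → ℤ, cst x ∈ convexHull ℝ (cst '' F) → x ∈ F) :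
    ∃ B : Set (Fin r → ℝ), Convex ℝ B ∧ IsCompact B ∧ (interior B).Nonempty ∧
      (∀ x ∈ B, -x ∈ B) ∧ ∀ x : Fin r → ℤ, cst x ∈ B ↔ x ∈ F := by
  set Q : Set (Fin r → ℝ) := convexHull ℝ (cst '' F) with hQ
  have hQc : IsCompact Q := (hF.image _).isCompact_convexHull ℝ
  have hQconv : Convex ℝ Q := convex_convexHull _ _
  have hQ0 : (0 : Fin r → ℝ) ∈ Q := subset_convexHull _ _ ⟨0, h0, cst_zero⟩
  have hQs : ∀ x ∈ Q, -x ∈ Q := by
    intro x hx
    have h1 : -Q = Q := by
      rw [hQ, ← convexHull_neg (𝕜 := ℝ)]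
      congr 1
      ext z
      constructor
      · intro hz
        obtain ⟨y, hy, hyz⟩ := hz
        exact ⟨-y, hs y hy, by rw [cst_neg, hyz, neg_neg]⟩
      · rintro ⟨y, hy, rfl⟩
        exact ⟨-y, hs y hy, by rw [cst_neg]⟩
    rw [← h1, Set.mem_neg, neg_neg]
    exact hx
  have hdisj : Disjoint Q (cst '' Fᶜ) := by
    rw [Set.disjoint_left]
    rintro _ hx ⟨y, hy, rfl⟩
    exact hy (hconv y hx)
  obtain ⟨δ, hδ, hdis⟩ := hdisj.exists_cthickenings hQc (closed_of_integers _)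
  refine ⟨Metric.cthickening δ Q, hQconv.cthickening δ, hQc.cthickening, ?_, ?_, ?_⟩
  · refine ⟨0, ?_⟩
    rw [mem_interior]
    refine ⟨Metric.ball 0 δ, ?_, Metric.isOpen_ball, Metric.mem_ball_self hδ⟩
    intro x hx
    refine Metric.mem_cthickening_of_dist_le x 0 δ Q hQ0 ?_
    exact (Metric.mem_ball.1 hx).le
  · intro x hx
    rw [Metric.mem_cthickening_iff] at hx ⊢
    have h1 : Metric.infEDist (-x) Q = Metric.infEDist x Q := by
      have h2 : -Q = Q := by
        ext z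
        rw [Set.mem_neg]
        exact ⟨fun h => by simpa using hQs _ h, fun h => hQs _ h⟩
      rw [infEDist_neg, h2]
    rw [h1]
    exact hx
  · intro x
    constructor
    · intro hx
      by_contra hcon
      refine Set.disjoint_left.1 hdis hx ?_
      exact Metric.self_subset_cthickening _ ⟨x, hcon, rfl⟩
    · intro hx
      exact Metric.self_subset_cthickening _ (subset_convexHull _ _ ⟨x, hx, rfl⟩)

/-- the integer points of `t • C` are the integer points of a symmetric convex body -/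
lemma exists_body_E {r : ℕ} {C : Set (Fin r → ℝ)} (hC : Convex ℝ C) (h0 : (0 : Fin r → ℝ) ∈ C)
    (hs : ∀ x ∈ C, -x ∈ C) {t : ℝ} (hfin : (E C t).Finite) :
    ∃ B : Set (Fin r → ℝ), Convex ℝ B ∧ IsCompact B ∧ (interior B).Nonempty ∧
      (∀ x ∈ B, -x ∈ B) ∧ ∀ x : Fin r → ℤ, cst x ∈ B ↔ x ∈ E C t := by
  refine exists_body _ hfin (E_zero h0 _) (fun x hx => E_neg hs hx) ?_
  intro x hx
  have h1 : cst '' (E C t) ⊆ t • C := by
    rintro _ ⟨y, hy, rfl⟩
    exact hy
  exact convexHull_min h1 (hC.smul t) hx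

end TH388.CVX
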