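import Pool.Agent.TH388.CVX.Mid

/-! Assembly (helper388). -/

set_option autoImplicit false
open scoped Pointwise

namespace TH388.CVX

open scoped Classical in
theorem main {Γ : Type*} [AddCommGroup Γ] {K L : ℝ} {A : Finset Γ}
    (hA : A.Nonempty) (hK : ((A + A).card : ℝ) ≤ K * A.card) {n : ℕ}
    (P : Set (Fin n → ℝ)) (hP : Convex ℝ P) (D : Finset (Fin n → ℤ))
    (hD : ∀ v, v ∈ D ↔ cst v ∈ P)
    (ψ : (Fin n → ℤ) →+ Γ) (H : AddSubgroup Γ) [Finite H] (hHA : Nat.card H ≤ A.card)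
    (hprop : ∀ a b c d : Fin n → ℤ, a ∈ D → b ∈ D → c ∈ D → d ∈ D →
      ψ a + ψ b - ψ c - ψ d ∈ H → a + b = c + d)
    (hvol : (D.card : ℝ) * Nat.card H ≤ L * A.card)
    (X : Finset Γ) (hX : (X.card : ℝ) ≤ L)
    (hcov : ∀ a ∈ A, ∃ x ∈ X, ∃ v ∈ D, ∃ h ∈ H, a = x + ψ v + h) :
    ∃ (d : ℕ) (B : Set (Fin d → ℝ)) (φ : (Fin d → ℤ) →+ Γ) (T : Finset Γ),
      (d : ℝ) ≤ 480 * Real.log (2 * K * L) ∧
      Convex ℝ B ∧ IsCompact B ∧ (interior B).Nonempty ∧ (∀ x ∈ B, -x ∈ B) ∧
      {x : Fin d → ℤ | cst x ∈ B}.Finite ∧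
      {x : Fin d → ℤ | cst x ∈ B}.ncard * Nat.card H ≤ A.card ∧
      (T.card : ℝ) ≤ (2 * K * L) ^ 3100 ∧
      ∀ a ∈ A, ∃ t ∈ T, ∃ x : Fin d → ℤ, cst x ∈ B ∧ ∃ h ∈ H, a = t + φ x + h := by
  have hcA : (0 : ℝ) < A.card := by exact_mod_cast hA.card_pos
  have hK1 : 1 ≤ K := by
    have h1 : (A.card : ℝ) ≤ (A + A).card := by
      exact_mod_cast Finset.card_le_card_add_right hA
    nlinarith
  have hL1 : 1 ≤ L := by
    obtain ⟨a, ha⟩ := hA
    obtain ⟨x, hx, -⟩ := hcov a ha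
    have h1 : (1 : ℝ) ≤ X.card := by exact_mod_cast Finset.card_pos.2 ⟨x, hx⟩
    linarith
  have hK0 : 0 < K := by linarith
  have hL0 : 0 < L := by linarith
  have hKL1 : 1 ≤ K * L := by nlinarith
  have hdim : 480 * Real.log (K * L) + 1 ≤ 480 * Real.log (2 * K * L) := by
    have h1 : Real.log (2 * K * L) = Real.log 2 + Real.log (K * L) := by
      rw [show 2 * K * L = 2 * (K * L) by ring, Real.log_mul (by norm_num) (by positivity)]
    have h2 := Real.log_two_gt_d9
    rw [h1]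
    linarith
  have hHpos : (0 : ℝ) < Nat.card H := by exact_mod_cast Nat.card_pos
  -- lifting
  obtain ⟨x0, W, hWne, hWD, hWA, hWinj, hAW, hWW⟩ := step1 hA hK (D : Set (Fin n → ℤ)) ψ H
    (fun a b c d ha hb hc hd => hprop a b c d ha hb hc hd) X hX hcov
  have hWpos : (0 : ℝ) < W.card := by exact_mod_cast hWne.card_pos
  have hWK : ((W + W).card : ℝ) ≤ (K * L) * W.card := by
    calc ((W + W).card : ℝ) ≤ K * A.card := hWW
      _ ≤ K * (L * W.card) := by gcongr
      _ = (K * L) * W.card := by ring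
  -- weak PFR
  obtain ⟨r, ι, y0, W', co, hr, hιinj, hW'W, hW'ne, hco, hW'card⟩ := step2 H W hWne hWK
  -- midpoints
  obtain ⟨xz, U, hUW', hUne, hzD, hU, hUcard⟩ := step3 H P hP D hD ι y0 W' hW'ne co
    (fun p hp => Finset.mem_coe.1 (hWD p (hW'W hp))) hco
  set z := y0 + ι xz with hz
  have hUpos : (0 : ℝ) < U.card := by exact_mod_cast hUne.card_pos
  have hW'pos : (0 : ℝ) < W'.card := by exact_mod_cast hW'ne.card_pos
  -- size of `U`
  have hAU : (A.card : ℝ) ≤ L ^ 3 * 4 ^ r * (K * L) ^ 370 * U.card := by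
    have h1 : (W'.card : ℝ) * W'.card ≤ 4 ^ r * (D.card * Nat.card H) * U.card := by
      exact_mod_cast hUcard
    have h2 : (A.card : ℝ) ≤ L * ((K * L) ^ 185 * W'.card) := by
      refine hAW.trans ?_
      gcongr
    have h3 : (A.card : ℝ) * A.card ≤
        (L ^ 3 * 4 ^ r * (K * L) ^ 370 * U.card) * A.card := by
      calc (A.card : ℝ) * A.card
          ≤ (L * ((K * L) ^ 185 * W'.card)) * (L * ((K * L) ^ 185 * W'.card)) := by gcongr
        _ = L ^ 2 * (K * L) ^ 370 * (W'.card * W'.card) := by ring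
        _ ≤ L ^ 2 * (K * L) ^ 370 * (4 ^ r * (D.card * Nat.card H) * U.card) := by gcongr
        _ ≤ L ^ 2 * (K * L) ^ 370 * (4 ^ r * (L * A.card) * U.card) := by gcongr
        _ = (L ^ 3 * 4 ^ r * (K * L) ^ 370 * U.card) * A.card := by ring
    exact le_of_mul_le_mul_right h3 hcA
  -- the piece of `A`
  set Φ : (Fin n → ℤ) × H → Γ := fun p => x0 + ψ p.1 + (p.2 : Γ) with hΦ
  have hUW : U ⊆ W := hUW'.trans hW'W
  set A2 := U.image Φ with hA2
  have hA2card : A2.card = U.card :=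
    Finset.card_image_of_injOn (hWinj.mono (fun p hp => Finset.mem_coe.2 (hUW hp)))
  have hA2A : A2 ⊆ A := by
    intro a ha
    obtain ⟨p, hp, rfl⟩ := Finset.mem_image.1 ha
    exact hWA p (hUW hp)
  have hA2ne : A2.Nonempty := hUne.image _
  have hruz : ((A + A2).card : ℝ) ≤ (K * (L ^ 3 * 4 ^ r * (K * L) ^ 370)) * A2.card := by
    calc ((A + A2).card : ℝ) ≤ (A + A).card := by
          exact_mod_cast Finset.card_le_card (Finset.add_subset_add_left hA2A)
      _ ≤ K * A.card := hK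
      _ ≤ K * (L ^ 3 * 4 ^ r * (K * L) ^ 370 * U.card) := by gcongr
      _ = _ := by rw [hA2card]; ring
  obtain ⟨Y, -, hYcard, hYcov⟩ := Finset.ruzsa_covering_add hA2ne hruz
  -- the symmetric convex set
  set C : Set (Fin r → ℝ) := {y | cst z + real ι y ∈ P ∧ cst z - real ι y ∈ P} with hC
  have hCmem : ∀ y, y ∈ C ↔ cst z + real ι y ∈ P ∧ cst z - real ι y ∈ P := fun y => Iff.rfl
  have hzP : cst z ∈ P := (hD _).1 hzD
  have hCconv : Convex ℝ C := by
    intro y hy w hw a b ha hb hab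
    obtain ⟨hy1, hy2⟩ := (hCmem y).1 hy
    obtain ⟨hw1, hw2⟩ := (hCmem w).1 hw
    rw [hCmem]
    have e1 : cst z + real ι (a • y + b • w) =
        a • (cst z + real ι y) + b • (cst z + real ι w) := by
      rw [map_add, map_smul, map_smul, smul_add, smul_add]
      calc cst z + (a • real ι y + b • real ι w)
          = (a + b) • cst z + (a • real ι y + b • real ι w) := by rw [hab, one_smul]
        _ = _ := by rw [add_smul]; abel
    have e2 : cst z - real ι (a • y + b • w) =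
        a • (cst z - real ι y) + b • (cst z - real ι w) := by
      rw [map_add, map_smul, map_smul, smul_sub, smul_sub]
      calc cst z - (a • real ι y + b • real ι w)
          = (a + b) • cst z - (a • real ι y + b • real ι w) := by rw [hab, one_smul]
        _ = _ := by rw [add_smul]; abel
    rw [e1, e2]
    exact ⟨hP hy1 hw1 ha hb hab, hP hy2 hw2 ha hb hab⟩
  have hC0 : (0 : Fin r → ℝ) ∈ C := by
    rw [hCmem]; simp [hzP]
  have hCs : ∀ y ∈ C, -y ∈ C := by
    intro y hy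
    obtain ⟨hy1, hy2⟩ := (hCmem y).1 hy
    rw [hCmem, map_neg]
    exact ⟨by simpa [sub_eq_add_neg] using hy2, by simpa [sub_eq_add_neg] using hy1⟩
  have hE1 : ∀ x : Fin r → ℤ, x ∈ E C 1 ↔ z + ι x ∈ D ∧ z - ι x ∈ D := by
    intro x
    have h1 : x ∈ E C 1 ↔ cst x ∈ C := by
      change cst x ∈ (1 : ℝ) • C ↔ _
      rw [one_smul]
    rw [h1, hCmem, real_cst, ← cst_add, ← cst_sub, ← hD, ← hD]
  have hE1fin : (E C 1).Finite ∧ (E C 1).ncard ≤ D.card := by
    have hm : ∀ x ∈ E C 1, z + ι x ∈ (D : Set (Fin n → ℤ)) := fun x hx => ((hE1 x).1 hx).1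
    have hi : Set.InjOn (fun x => z + ι x) (E C 1) := by
      intro x _ y _ hxy
      exact hιinj (add_left_cancel hxy)
    refine ⟨Set.Finite.of_injOn hm hi (Finset.finite_toSet D), ?_⟩
    have := Set.ncard_le_ncard_of_injOn _ hm hi (Finset.finite_toSet D)
    rwa [Set.ncard_coe_finset] at this
  have hM1 : (1 : ℝ) ≤ A.card / Nat.card H := by
    rw [le_div_iff₀ hHpos, one_mul]
    exact_mod_cast hHA
  have hN1 : ((E C 1).ncard : ℝ) ≤ L * (A.card / Nat.card H) := by
    rw [← mul_div_assoc, le_div_iff₀ hHpos]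
    refine le_trans ?_ hvol
    have : ((E C 1).ncard : ℝ) ≤ D.card := by exact_mod_cast hE1fin.2
    gcongr
  obtain ⟨t, ht0, ht1, hNt, S, hS, hScov⟩ := scale hCconv hC0 hCs hE1fin.1 _ L hM1 hL1 hN1
  have hEt : (E C t).Finite := E_finite hCconv hC0 hCs hE1fin.1 ht0.le
  obtain ⟨B, hB1, hB2, hB3, hB4, hB5⟩ := exists_body_E hCconv hC0 hCs hEt
  have hBset : {x : Fin r → ℤ | cst x ∈ B} = E C t := Set.ext fun x => hB5 x
  refine ⟨r, B, ψ.comp ι.toAddMonoidHom,
    (Y ×ˢ S).image (fun ys => ys.1 + ψ (ι ys.2)), ?_, hB1, hB2, hB3, hB4, ?_, ?_, ?_, ?_⟩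
  · -- dimension
    exact hr.trans hdim
  · rw [hBset]; exact hEt
  · rw [hBset]
    have h1 : ((E C t).ncard : ℝ) * Nat.card H ≤ A.card := by
      rwa [le_div_iff₀ hHpos] at hNt
    exact_mod_cast h1
  · -- number of translates
    have hlog : 0 ≤ Real.log (2 * K * L) := Real.log_nonneg (by nlinarith)
    have hκ : 1 ≤ 2 * K * L := by nlinarith
    have hκ0 : 0 < 2 * K * L := by linarith
    have hr2 : (r : ℝ) ≤ 480 * Real.log (2 * K * L) := hr.trans hdim
    have h160 : (160 : ℝ) ^ r ≤ (2 * K * L) ^ 2662 := by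
      calc (160 : ℝ) ^ r ≤ 256 ^ r := by gcongr; norm_num
        _ = Real.exp (r * (8 * Real.log 2)) := by
            rw [Real.exp_nat_mul, show (8 : ℝ) * Real.log 2 = Real.log (2 ^ 8) by
              rw [Real.log_pow]; norm_num, Real.exp_log (by norm_num)]
            norm_num
        _ ≤ Real.exp ((2662 : ℕ) * Real.log (2 * K * L)) := by
            apply Real.exp_le_exp.2
            have h2 := Real.log_two_lt_d9
            have h3 : 0 < Real.log 2 := Real.log_pos (by norm_num)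
            calc (r : ℝ) * (8 * Real.log 2)
                ≤ (480 * Real.log (2 * K * L)) * (8 * Real.log 2) := by gcongr
              _ = Real.log (2 * K * L) * (3840 * Real.log 2) := by ring
              _ ≤ Real.log (2 * K * L) * 2662 := by
                  apply mul_le_mul_of_nonneg_left _ hlog
                  linarith
              _ = _ := by push_cast; ring
        _ = (2 * K * L) ^ 2662 := by rw [Real.exp_nat_mul, Real.exp_log hκ0]
    have hcard : (((Y ×ˢ S).image (fun ys => ys.1 + ψ (ι ys.2))).card : ℝ) ≤ Y.card * S.card := by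
      have := Finset.card_image_le (s := Y ×ˢ S) (f := fun ys : Γ × (Fin r → ℤ) => ys.1 + ψ (ι ys.2))
      rw [Finset.card_product] at this
      exact_mod_cast this
    have hKLκ : K * L ≤ 2 * K * L := by nlinarith
    have hLκ : L ≤ 2 * K * L := by nlinarith
    have hKκ : K ≤ 2 * K * L := by nlinarith
    calc (((Y ×ˢ S).image (fun ys => ys.1 + ψ (ι ys.2))).card : ℝ)
        ≤ Y.card * S.card := hcard
      _ ≤ (K * (L ^ 3 * 4 ^ r * (K * L) ^ 370)) * (40 ^ r * L) := by gcongr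
      _ = K * L ^ 4 * (K * L) ^ 370 * 160 ^ r := by
          have h4 : (160 : ℝ) ^ r = 4 ^ r * 40 ^ r := by rw [← mul_pow]; norm_num
          rw [h4]
          generalize (4 : ℝ) ^ r = u
          generalize (40 : ℝ) ^ r = v
          generalize (K * L) ^ 370 = w
          ring
      _ ≤ (2 * K * L) * (2 * K * L) ^ 4 * (2 * K * L) ^ 370 * (2 * K * L) ^ 2662 := by
          gcongr
      _ = (2 * K * L) ^ 3037 := by rw [← pow_succ', ← pow_add, ← pow_add]
      _ ≤ (2 * K * L) ^ 3100 := pow_le_pow_right₀ hκ (by norm_num)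
  · intro a ha
    have h1 := hYcov ha
    obtain ⟨y, hy, d, hd, rfl⟩ := Finset.mem_add.1 h1
    obtain ⟨a1, ha1, a2, ha2, rfl⟩ := Finset.mem_sub.1 hd
    obtain ⟨p, hp, rfl⟩ := Finset.mem_image.1 ha1
    obtain ⟨q, hq, rfl⟩ := Finset.mem_image.1 ha2
    have hmemU : ∀ p ∈ U, co p - xz ∈ E C 1 := by
      intro p hp
      rw [hE1]
      refine ⟨?_, (hU p hp).2⟩
      rw [← (hU p hp).1]
      exact Finset.mem_coe.1 (hWD p (hUW hp))
    have h2 : co p - co q ∈ E C 2 := by
      have := E_sub hCconv hCs zero_le_one zero_le_one (hmemU p hp) (hmemU q hq)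
      rw [one_add_one_eq_two] at this
      have e : co p - xz - (co q - xz) = co p - co q := by abel
      rwa [e] at this
    obtain ⟨s, hs, hsx⟩ := hScov _ h2
    refine ⟨y + ψ (ι s), Finset.mem_image.2 ⟨(y, s), Finset.mem_product.2 ⟨hy, hs⟩, rfl⟩,
      co p - co q - s, (hB5 _).2 hsx, (p.2 : Γ) - q.2, H.sub_mem p.2.2 q.2.2, ?_⟩
    have hp1 := hco p (hUW' hp)
    have hq1 := hco q (hUW' hq)
    change y + (x0 + ψ p.1 + (p.2 : Γ) - (x0 + ψ q.1 + (q.2 : Γ))) =
      y + ψ (ι s) + ψ (ι (co p - co q - s)) + ((p.2 : Γ) - q.2)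
    rw [hp1, hq1]
    simp only [map_add, map_sub]
    abel

end TH388.CVX
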