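import Mathlib

/-! Lattice points of dilates of a symmetric convex set: counting and covering (helper388). -/

set_option autoImplicit false
open scoped Pointwise

namespace TH388.CVX

/-- an integer point as a real point -/
def cst {r : ℕ} (x : Fin r → ℤ) : Fin r → ℝ := fun i => (x i : ℝ)

lemma cst_apply {r : ℕ} (x : Fin r → ℤ) (i : Fin r) : cst x i = (x i : ℝ) := rfl

lemma cst_add {r : ℕ} (x y : Fin r → ℤ) : cst (x + y) = cst x + cst y := by
  funext i; simp [cst]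

lemma cst_sub {r : ℕ} (x y : Fin r → ℤ) : cst (x - y) = cst x - cst y := by
  funext i; simp [cst]

lemma cst_neg {r : ℕ} (x : Fin r → ℤ) : cst (-x) = -cst x := by
  funext i; simp [cst]

lemma cst_zero {r : ℕ} : cst (0 : Fin r → ℤ) = 0 := by
  funext i; simp [cst]

lemma cst_zsmul {r : ℕ} (m : ℤ) (x : Fin r → ℤ) : cst (m • x) = (m : ℝ) • cst x := by
  funext i; simp [cst]

lemma cst_inj {r : ℕ} {x y : Fin r → ℤ} (h : cst x = cst y) : x = y := by
  funext i
  have := congrFun h i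
  simpa [cst] using this

/-- integer points of the dilate `t • C` -/
def E {r : ℕ} (C : Set (Fin r → ℝ)) (t : ℝ) : Set (Fin r → ℤ) := {x | cst x ∈ t • C}

lemma count (r m : ℕ) (hm : 0 < m) (F G : Set (Fin r → ℤ)) (hG : G.Finite)
    (h : ∀ x ∈ F, ∀ y ∈ F, ∀ w : Fin r → ℤ, x - y = (m : ℤ) • w → w ∈ G) :
    F.Finite ∧ F.ncard ≤ m ^ r * G.ncard := by
  classical
  have : NeZero m := ⟨hm.ne'⟩
  let cls : (Fin r → ℤ) → (Fin r → ZMod m) := fun x i => (x i : ZMod m)
  let ρ : (Fin r → ZMod m) → (Fin r → ℤ) := fun c =>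
    if h : ∃ x ∈ F, cls x = c then h.choose else 0
  have hρ : ∀ x ∈ F, ρ (cls x) ∈ F ∧ cls (ρ (cls x)) = cls x := by
    intro x hx
    have hex : ∃ y ∈ F, cls y = cls x := ⟨x, hx, rfl⟩
    have : ρ (cls x) = hex.choose := by simp only [ρ]; rw [dif_pos hex]
    rw [this]
    exact hex.choose_spec
  have hdiv : ∀ x ∈ F, ∃ w : Fin r → ℤ, x - ρ (cls x) = (m : ℤ) • w := by
    intro x hx
    obtain ⟨_, h2⟩ := hρ x hx
    have h3 : ∀ i, ∃ k : ℤ, x i - ρ (cls x) i = (m : ℤ) * k := by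
      intro i
      have h4 : ((ρ (cls x) i : ℤ) : ZMod m) = ((x i : ℤ) : ZMod m) := congrFun h2 i
      have h5 := (ZMod.intCast_eq_intCast_iff_dvd_sub _ _ _).1 h4
      exact h5
    choose w hw using h3
    exact ⟨w, funext fun i => by simpa using hw i⟩
  let q : (Fin r → ℤ) → (Fin r → ℤ) := fun x =>
    if h : ∃ w : Fin r → ℤ, x - ρ (cls x) = (m : ℤ) • w then h.choose else 0
  have hq : ∀ x ∈ F, x - ρ (cls x) = (m : ℤ) • q x := by
    intro x hx
    have hex := hdiv x hx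
    have : q x = hex.choose := by simp only [q]; rw [dif_pos hex]
    rw [this]
    exact hex.choose_spec
  let g : (Fin r → ℤ) → (Fin r → ZMod m) × (Fin r → ℤ) := fun x => (cls x, q x)
  have hmaps : ∀ x ∈ F, g x ∈ (Set.univ : Set (Fin r → ZMod m)) ×ˢ G := by
    intro x hx
    refine ⟨Set.mem_univ _, ?_⟩
    exact h x hx _ (hρ x hx).1 _ (hq x hx)
  have hinj : Set.InjOn g F := by
    intro x hx y hy hxy
    have h1 : cls x = cls y := congrArg Prod.fst hxy
    have h2 : q x = q y := congrArg Prod.snd hxy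
    have h3 := hq x hx
    have h4 := hq y hy
    rw [← h1, ← h2] at h4
    have h5 : x - ρ (cls x) = y - ρ (cls x) := h3.trans h4.symm
    exact sub_left_injective h5
  have hfin : ((Set.univ : Set (Fin r → ZMod m)) ×ˢ G).Finite := Set.finite_univ.prod hG
  refine ⟨Set.Finite.of_injOn hmaps hinj hfin, ?_⟩
  have h1 := Set.ncard_le_ncard_of_injOn g hmaps hinj hfin
  rw [Set.ncard_prod] at h1
  have h2 : (Set.univ : Set (Fin r → ZMod m)).ncard = m ^ r := by
    rw [Set.ncard_univ, Nat.card_eq_fintype_card, Fintype.card_fun, ZMod.card, Fintype.card_fin]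
  rwa [h2] at h1

section
variable {r : ℕ} {C : Set (Fin r → ℝ)}

lemma E_add (hC : Convex ℝ C) {a b : ℝ} (ha : 0 ≤ a) (hb : 0 ≤ b) {x y : Fin r → ℤ}
    (hx : x ∈ E C a) (hy : y ∈ E C b) : x + y ∈ E C (a + b) := by
  simp only [E, Set.mem_ofPred_eq] at *
  rw [cst_add, hC.add_smul ha hb]
  exact Set.add_mem_add hx hy

lemma E_neg (hs : ∀ x ∈ C, -x ∈ C) {a : ℝ} {x : Fin r → ℤ} (hx : x ∈ E C a) : -x ∈ E C a := by
  simp only [E, Set.mem_ofPred_eq] at *
  obtain ⟨c, hc, hcx⟩ := hx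
  refine ⟨-c, hs c hc, ?_⟩
  rw [cst_neg, ← hcx]
  simp

lemma E_sub (hC : Convex ℝ C) (hs : ∀ x ∈ C, -x ∈ C) {a b : ℝ} (ha : 0 ≤ a) (hb : 0 ≤ b)
    {x y : Fin r → ℤ} (hx : x ∈ E C a) (hy : y ∈ E C b) : x - y ∈ E C (a + b) := by
  rw [sub_eq_add_neg]
  exact E_add hC ha hb hx (E_neg hs hy)

lemma E_mono (hC : Convex ℝ C) (h0 : (0 : Fin r → ℝ) ∈ C) {a b : ℝ} (ha : 0 ≤ a) (hab : a ≤ b)
    {x : Fin r → ℤ} (hx : x ∈ E C a) : x ∈ E C b := by
  have h1 : (0 : Fin r → ℤ) ∈ E C (b - a) := by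
    simp only [E, Set.mem_ofPred_eq, cst_zero]
    exact ⟨0, h0, by simp⟩
  have h2 := E_add hC ha (sub_nonneg.2 hab) hx h1
  simpa using h2

lemma E_zero (h0 : (0 : Fin r → ℝ) ∈ C) (a : ℝ) : (0 : Fin r → ℤ) ∈ E C a := by
  simp only [E, Set.mem_ofPred_eq, cst_zero]
  exact ⟨0, h0, by simp⟩

lemma E_div {a : ℝ} {m : ℕ} (hm : 0 < m) {w : Fin r → ℤ} (hw : (m : ℤ) • w ∈ E C a) :
    w ∈ E C (a / m) := by
  have hm' : (m : ℝ) ≠ 0 := by exact_mod_cast hm.ne'
  obtain ⟨c, hc, hcx⟩ : ∃ c ∈ C, a • c = cst ((m : ℤ) • w) := hw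
  rw [cst_zsmul] at hcx
  have h1 : cst w = (a / m) • c := by
    calc cst w = (m : ℝ)⁻¹ • (((m : ℤ) : ℝ) • cst w) := by
          rw [smul_smul, show (m : ℝ)⁻¹ * ((m : ℤ) : ℝ) = 1 by push_cast; field_simp, one_smul]
      _ = (m : ℝ)⁻¹ • (a • c) := by rw [hcx]
      _ = (a / m) • c := by rw [smul_smul]; congr 1; field_simp
  exact ⟨c, hc, h1.symm⟩

/-- counting in a dilate, with difference classes modulo `m` -/
lemma E_count (hC : Convex ℝ C) (hs : ∀ x ∈ C, -x ∈ C) {a b : ℝ} (ha : 0 ≤ a) {m : ℕ}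
    (hm : 0 < m) (hb : b = 2 * a / m) (hfin : (E C b).Finite) :
    (E C a).Finite ∧ (E C a).ncard ≤ m ^ r * (E C b).ncard := by
  refine count r m hm _ _ hfin ?_
  intro x hx y hy w hw
  have h1 := E_sub hC hs ha ha hx hy
  rw [hw] at h1
  have h2 := E_div hm h1
  rwa [← two_mul, ← hb] at h2

lemma E_finite (hC : Convex ℝ C) (h0 : (0 : Fin r → ℝ) ∈ C) (hs : ∀ x ∈ C, -x ∈ C)
    (h1 : (E C 1).Finite) {a : ℝ} (ha : 0 ≤ a) : (E C a).Finite := by
  obtain ⟨m, hm⟩ := exists_nat_ge (2 * a)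
  have hm1 : (0 : ℝ) < (m + 1 : ℕ) := by positivity
  have h2 : (E C (2 * a / (m + 1 : ℕ))).Finite := by
    refine h1.subset ?_
    intro x hx
    refine E_mono hC h0 (by positivity) ?_ hx
    rw [div_le_one hm1]
    push_cast
    linarith
  exact (E_count hC hs ha (Nat.succ_pos m) rfl h2).1

/-- the covering lemma with prescribed volume -/
lemma scale (hC : Convex ℝ C) (h0 : (0 : Fin r → ℝ) ∈ C) (hs : ∀ x ∈ C, -x ∈ C)
    (hfin : (E C 1).Finite) (M L : ℝ) (hM : 1 ≤ M) (hL : 1 ≤ L)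
    (hN : ((E C 1).ncard : ℝ) ≤ L * M) :
    ∃ t : ℝ, 0 < t ∧ t ≤ 1 ∧ ((E C t).ncard : ℝ) ≤ M ∧
      ∃ S : Finset (Fin r → ℤ), (S.card : ℝ) ≤ 40 ^ r * L ∧
        ∀ x ∈ E C 2, ∃ s ∈ S, x - s ∈ E C t := by
  classical
  have hF : ∀ {a : ℝ}, 0 ≤ a → (E C a).Finite := fun ha => E_finite hC h0 hs hfin ha
  -- small scales
  have hex : ∃ j : ℕ, ((E C ((1 / 2 : ℝ) ^ j)).ncard : ℝ) ≤ M := by
    refine ⟨(E C 1).ncard, ?_⟩
    set j := (E C 1).ncard with hj
    refine le_trans ?_ hM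
    by_contra hcon
    push Not at hcon
    have h2 : 1 < (E C ((1 / 2 : ℝ) ^ j)).ncard := by exact_mod_cast hcon
    obtain ⟨x, hx, hx0⟩ : ∃ x ∈ E C ((1 / 2 : ℝ) ^ j), x ≠ 0 := by
      obtain ⟨a, b, ha, hb, hab⟩ := (Set.one_lt_ncard_iff (hF (by positivity))).1 h2
      by_cases h : a = 0
      · exact ⟨b, hb, fun h' => hab (h.trans h'.symm)⟩
      · exact ⟨a, ha, h⟩
    have hmul : ∀ k : ℕ, (k : ℤ) • x ∈ E C (k * (1 / 2 : ℝ) ^ j) := by
      intro k
      induction k with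
      | zero => simpa using E_zero h0 _
      | succ k ih =>
        have := E_add hC (by positivity) (by positivity) ih hx
        push_cast
        rw [add_smul, one_smul, add_mul, one_mul]
        exact this
    have hsub : (fun k : ℕ => (k : ℤ) • x) '' (Set.Iic (2 ^ j)) ⊆ E C 1 := by
      rintro _ ⟨k, hk, rfl⟩
      refine E_mono hC h0 (by positivity) ?_ (hmul k)
      have hk' : (k : ℝ) ≤ 2 ^ j := by exact_mod_cast hk
      calc (k : ℝ) * (1 / 2) ^ j ≤ 2 ^ j * (1 / 2) ^ j := by gcongr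
        _ = 1 := by rw [← mul_pow]; norm_num
    have hinj : Function.Injective (fun k : ℕ => (k : ℤ) • x) := by
      intro k l hkl
      have h3 : ((k : ℤ) - l) • x = 0 := by
        rw [sub_smul, sub_eq_zero]; exact hkl
      rcases smul_eq_zero.1 h3 with h4 | h4
      · exact_mod_cast sub_eq_zero.1 h4
      · exact absurd h4 hx0
    have h5 := Set.ncard_le_ncard hsub hfin
    rw [Set.ncard_image_of_injective _ hinj] at h5
    have h6 : (Set.Iic (2 ^ j) : Set ℕ).ncard = 2 ^ j + 1 := by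
      rw [← Finset.coe_Iic, Set.ncard_coe_finset, Nat.card_Iic]
    rw [h6] at h5
    have h7 : j < 2 ^ j := Nat.lt_two_pow_self
    omega
  set j := Nat.find hex with hjdef
  have hj := Nat.find_spec hex
  set t : ℝ := (1 / 2 : ℝ) ^ j with ht
  have ht0 : 0 < t := by positivity
  have ht1 : t ≤ 1 := pow_le_one₀ (by norm_num) (by norm_num)
  refine ⟨t, ht0, ht1, hj, ?_⟩
  -- Ruzsa covering of `E 2` by `E (t/2)`
  set F2 : Finset (Fin r → ℤ) := (hF (a := 2) (by norm_num)).toFinset with hF2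
  set Ft : Finset (Fin r → ℤ) := (hF (a := t / 2) (by positivity)).toFinset with hFt
  have hFtne : Ft.Nonempty := ⟨0, by rw [hFt, Set.Finite.mem_toFinset]; exact E_zero h0 _⟩
  have hFtpos : (0 : ℝ) < Ft.card := by exact_mod_cast hFtne.card_pos
  have hFtcard : (E C (t / 2)).ncard = Ft.card := by
    rw [hFt, Set.ncard_eq_toFinset_card _ (hF (a := t / 2) (by positivity))]
  have hsum : ((F2 + Ft).card : ℝ) ≤ (E C (5 / 2)).ncard := by
    have h1 : ((F2 + Ft : Finset (Fin r → ℤ)) : Set (Fin r → ℤ)) ⊆ E C (5 / 2) := by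
      intro z hz
      rw [Finset.mem_coe, Finset.mem_add] at hz
      obtain ⟨a, ha, b, hb, rfl⟩ := hz
      rw [hF2, Set.Finite.mem_toFinset] at ha
      rw [hFt, Set.Finite.mem_toFinset] at hb
      refine E_mono hC h0 (by positivity) ?_ (E_add hC (by norm_num) (by positivity) ha hb)
      linarith
    have h2 := Set.ncard_le_ncard h1 (hF (by norm_num))
    rw [Set.ncard_coe_finset] at h2
    exact_mod_cast h2
  have hbound : ((E C (5 / 2)).ncard : ℝ) ≤ 40 ^ r * L * Ft.card := by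
    rcases Nat.eq_zero_or_pos j with hj0 | hjpos
    · have h1 := (E_count hC hs (a := 5 / 2) (b := 1 / 2) (by norm_num) (m := 10) (by norm_num)
        (by norm_num) (hF (by norm_num))).2
      have ht1' : t = 1 := by rw [ht, hj0, pow_zero]
      have h2 : (E C (1 / 2)).ncard = Ft.card := by rw [← hFtcard, ht1']
      rw [h2] at h1
      have h3 : ((E C (5 / 2)).ncard : ℝ) ≤ 10 ^ r * Ft.card := by exact_mod_cast h1
      refine h3.trans ?_
      have h4 : (10 : ℝ) ^ r ≤ 40 ^ r * L := by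
        calc (10 : ℝ) ^ r ≤ 40 ^ r := by gcongr; norm_num
          _ = 40 ^ r * 1 := by ring
          _ ≤ 40 ^ r * L := by gcongr
      gcongr
    · have h1 := (E_count hC hs (a := 5 / 2) (b := 1) (by norm_num) (m := 5) (by norm_num)
        (by norm_num) (hF (by norm_num))).2
      have h1' : ((E C (5 / 2)).ncard : ℝ) ≤ 5 ^ r * (E C 1).ncard := by exact_mod_cast h1
      have h2 : ¬ ((E C ((1 / 2 : ℝ) ^ (j - 1))).ncard : ℝ) ≤ M :=
        Nat.find_min hex (Nat.sub_lt hjpos (by norm_num))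
      push Not at h2
      have h3 : (1 / 2 : ℝ) ^ (j - 1) = 2 * t := by
        rw [ht]
        obtain ⟨i, hi⟩ : ∃ i, j = i + 1 := ⟨j - 1, by omega⟩
        rw [hi]
        simp only [Nat.add_sub_cancel]
        rw [pow_succ]
        ring
      rw [h3] at h2
      have h4 := (E_count hC hs (a := 2 * t) (b := t / 2) (by positivity) (m := 8) (by norm_num)
        (by push_cast; ring) (hF (by positivity))).2
      rw [hFtcard] at h4
      have h4' : ((E C (2 * t)).ncard : ℝ) ≤ 8 ^ r * Ft.card := by exact_mod_cast h4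
      calc ((E C (5 / 2)).ncard : ℝ) ≤ 5 ^ r * (E C 1).ncard := h1'
        _ ≤ 5 ^ r * (L * M) := by gcongr
        _ ≤ 5 ^ r * (L * (8 ^ r * Ft.card)) := by
            have : M ≤ 8 ^ r * Ft.card := h2.le.trans h4'
            gcongr
        _ = (5 * 8) ^ r * L * Ft.card := by rw [mul_pow]; ring
        _ = 40 ^ r * L * Ft.card := by norm_num
  obtain ⟨S, -, hScard, hScov⟩ := Finset.ruzsa_covering_add (A := F2) hFtne (hsum.trans hbound)
  refine ⟨S, hScard, ?_⟩
  intro x hx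
  have hx2 : x ∈ F2 := by rw [hF2, Set.Finite.mem_toFinset]; exact hx
  have h1 := hScov hx2
  rw [Finset.mem_add] at h1
  obtain ⟨s, hsS, d, hd, rfl⟩ := h1
  rw [Finset.mem_sub] at hd
  obtain ⟨a, ha, b, hb, rfl⟩ := hd
  rw [hFt, Set.Finite.mem_toFinset] at ha hb
  refine ⟨s, hsS, ?_⟩
  have h2 := E_sub hC hs (by positivity) (by positivity) ha hb
  rw [add_halves] at h2
  simpa using h2

end

end TH388.CVX
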