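import Pool.Agent.TH388.CVX.Body
import Pool.Agent.H137R2.Weak.Final

/-! Polynomial Freiman-Ruzsa for sets close to a 2-proper convex coset progression of arbitrary
dimension (helper388). -/

set_option autoImplicit false
open scoped Pointwise

namespace TH388.CVX

theorem weak_marton' {Γ : Type*} [AddCommGroup Γ] [d : DecidableEq Γ] {K : ℝ} {A : Finset Γ}
    (hA : A.Nonempty) (hK : ((A + A).card : ℝ) ≤ K * A.card) :
    ∃ (P : AddSubgroup Γ) (S T : Finset Γ), Finite P ∧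
      (S.card : ℝ) ≤ 480 * Real.log K + 1 ∧ T ⊆ A ∧ (T.card : ℝ) ≤ K ^ 185 ∧
      ∀ a ∈ A, ∃ t ∈ T, ∃ o : Γ, (∃ m : ℕ, Odd m ∧ m • o = 0) ∧
        a - t - o ∈ P ⊔ AddSubgroup.closure (S : Set Γ) := by
  have hd : d = (fun a b => Classical.propDecidable (a = b)) := Subsingleton.elim _ _
  subst hd
  obtain ⟨P, S, T, h1, -, -, h2, h3, h4, h5⟩ := H137.Weak.weak_marton hA hK
  exact ⟨P, S, T, h1, h2, h3, h4, h5⟩

open scoped Classical in
lemma pig {α β : Type*} (A : Finset α) (X : Finset β) (R : β → α → Prop)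
    (hcov : ∀ a ∈ A, ∃ x ∈ X, R x a) (hA : A.Nonempty) :
    ∃ x ∈ X, A.card ≤ X.card * (A.filter (R x)).card := by
  have hX : X.Nonempty := by
    obtain ⟨a, ha⟩ := hA
    obtain ⟨x, hx, -⟩ := hcov a ha
    exact ⟨x, hx⟩
  by_contra hcon
  push Not at hcon
  have h1 : A.card ≤ ∑ x ∈ X, (A.filter (R x)).card := by
    have h2 : A ⊆ X.biUnion (fun x => A.filter (R x)) := by
      intro a ha
      obtain ⟨x, hx, hxa⟩ := hcov a ha
      exact Finset.mem_biUnion.2 ⟨x, hx, Finset.mem_filter.2 ⟨ha, hxa⟩⟩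
    exact (Finset.card_le_card h2).trans Finset.card_biUnion_le
  have h3 : ∑ x ∈ X, X.card * (A.filter (R x)).card < ∑ _x ∈ X, A.card :=
    Finset.sum_lt_sum_of_nonempty hX hcon
  rw [← Finset.mul_sum, Finset.sum_const, smul_eq_mul] at h3
  have h4 : X.card * A.card ≤ X.card * ∑ x ∈ X, (A.filter (R x)).card :=
    Nat.mul_le_mul_left _ h1
  omega

/-- the real extension of an integer linear map -/
noncomputable def real {r n : ℕ} (ι : (Fin r → ℤ) →ₗ[ℤ] (Fin n → ℤ)) :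
    (Fin r → ℝ) →ₗ[ℝ] (Fin n → ℝ) :=
  ∑ i : Fin r, (LinearMap.proj i : (Fin r → ℝ) →ₗ[ℝ] ℝ).smulRight (cst (ι (Pi.single i 1)))

lemma real_cst {r n : ℕ} (ι : (Fin r → ℤ) →ₗ[ℤ] (Fin n → ℤ)) (x : Fin r → ℤ) :
    real ι (cst x) = cst (ι x) := by
  have h1 : ι x = ∑ i : Fin r, x i • ι (Pi.single i 1) := by
    conv_lhs => rw [← Finset.univ_sum_single x, map_sum]
    refine Finset.sum_congr rfl fun i _ => ?_
    rw [← map_smul]
    congr 1
    funext j
    by_cases h : j = i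
    · subst h; simp
    · simp [Pi.single_eq_of_ne h]
  rw [h1]
  funext j
  simp [real, cst, LinearMap.sum_apply]

/-- lattice in a finitely generated subgroup of `ℤⁿ` -/
lemma exists_coord {n : ℕ} (S : Finset (Fin n → ℤ)) :
    ∃ (r : ℕ) (ι : (Fin r → ℤ) →ₗ[ℤ] (Fin n → ℤ)), r ≤ S.card ∧ Function.Injective ι ∧
      ∀ v, v ∈ Submodule.span ℤ (S : Set (Fin n → ℤ)) ↔ ∃ x, ι x = v := by
  set V := Submodule.span ℤ (S : Set (Fin n → ℤ)) with hV
  let b := Module.finBasis ℤ V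
  refine ⟨Module.finrank ℤ V, V.subtype.comp b.equivFun.symm.toLinearMap, ?_, ?_, ?_⟩
  · have := finrank_span_finset_le_card (R := ℤ) S
    exact this
  · intro x y hxy
    have h1 : b.equivFun.symm x = b.equivFun.symm y := Subtype.ext hxy
    exact b.equivFun.symm.injective h1
  · intro v
    constructor
    · intro hv
      exact ⟨b.equivFun ⟨v, hv⟩, by simp⟩
    · rintro ⟨x, rfl⟩
      exact (b.equivFun.symm x).2

end TH388.CVX
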