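import Pool.Agent.TH388.CVX.Steps

/-! The midpoint pigeonhole (helper388). -/

set_option autoImplicit false
open scoped Pointwise

namespace TH388.CVX

lemma double_inj {n : ℕ} {a b : Fin n → ℤ} (h : a + a = b + b) : a = b := by
  funext i
  have := congrFun h i
  simp only [Pi.add_apply] at this
  omega

open scoped Classical in
lemma pig' {α β : Type*} (A : Finset α) (X : Finset β) (R : β → α → Prop)
    (hcov : ∀ a ∈ A, ∃ x ∈ X, R x a) (hA : A.Nonempty) :
    ∃ x ∈ X, ∃ F : Finset α, (∀ a, a ∈ F ↔ a ∈ A ∧ R x a) ∧ A.card ≤ X.card * F.card := by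
  obtain ⟨x, hx, h⟩ := pig A X R hcov hA
  exact ⟨x, hx, A.filter (R x), fun a => Finset.mem_filter, h⟩

open scoped Classical in
lemma step3 {Γ : Type*} [AddCommGroup Γ] {n r : ℕ} (H : AddSubgroup Γ) [Finite H]
    (P : Set (Fin n → ℝ)) (hP : Convex ℝ P) (D : Finset (Fin n → ℤ))
    (hD : ∀ v, v ∈ D ↔ cst v ∈ P)
    (ι : (Fin r → ℤ) →ₗ[ℤ] (Fin n → ℤ)) (y0 : Fin n → ℤ)
    (W : Finset ((Fin n → ℤ) × H)) (hW : W.Nonempty) (co : (Fin n → ℤ) × H → (Fin r → ℤ))
    (hWD : ∀ p ∈ W, p.1 ∈ D) (hco : ∀ p ∈ W, p.1 = y0 + ι (co p)) :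
    ∃ (xz : Fin r → ℤ) (U : Finset ((Fin n → ℤ) × H)), U ⊆ W ∧ U.Nonempty ∧
      y0 + ι xz ∈ D ∧
      (∀ p ∈ U, p.1 = (y0 + ι xz) + ι (co p - xz) ∧ (y0 + ι xz) - ι (co p - xz) ∈ D) ∧
      W.card * W.card ≤ 4 ^ r * (D.card * Nat.card H) * U.card := by
  -- classes modulo two
  let cls : (Fin n → ℤ) × H → (Fin r → ZMod 2) := fun p i => ((co p i : ℤ) : ZMod 2)
  obtain ⟨c, -, W2, hW2, hpig⟩ := pig' W Finset.univ (fun c p => cls p = c)
    (fun p _ => ⟨cls p, Finset.mem_univ _, rfl⟩) hW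
  have hcardu : (Finset.univ : Finset (Fin r → ZMod 2)).card = 2 ^ r := by
    rw [Finset.card_univ, Fintype.card_fun, ZMod.card, Fintype.card_fin]
  rw [hcardu] at hpig
  have hWpos := hW.card_pos
  have hW2pos : 0 < W2.card := by
    rcases Nat.eq_zero_or_pos W2.card with h | h
    · rw [h, mul_zero] at hpig; omega
    · exact h
  have hW2ne : W2.Nonempty := Finset.card_pos.1 hW2pos
  -- midpoints
  have hmid : ∀ p ∈ W2, ∀ q ∈ W2, ∃ x : Fin r → ℤ, x + x = co p + co q := by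
    intro p hp q hq
    have h1 : cls p = cls q := by
      rw [((hW2 _).1 hp).2, ((hW2 _).1 hq).2]
    have h2 : ∀ i, ∃ k : ℤ, co p i + co q i = 2 * k := by
      intro i
      have h3 : ((co p i : ℤ) : ZMod 2) = ((co q i : ℤ) : ZMod 2) := congrFun h1 i
      have h4 := (ZMod.intCast_eq_intCast_iff_dvd_sub _ _ _).1 h3
      obtain ⟨k, hk⟩ := h4
      refine ⟨co p i + k, ?_⟩
      push_cast at hk
      omega
    choose k hk using h2
    refine ⟨k, funext fun i => ?_⟩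
    have := hk i
    simp only [Pi.add_apply]
    omega
  have hmidD : ∀ pq ∈ W2 ×ˢ W2, ∃ z ∈ D, z + z = pq.1.1 + pq.2.1 := by
    rintro ⟨p, q⟩ hpq
    obtain ⟨hp, hq⟩ := Finset.mem_product.1 hpq
    obtain ⟨x, hx⟩ := hmid p hp q hq
    have hp1 := hco p ((hW2 _).1 hp).1
    have hq1 := hco q ((hW2 _).1 hq).1
    refine ⟨y0 + ι x, ?_, ?_⟩
    · have h1 : (y0 + ι x) + (y0 + ι x) = p.1 + q.1 := by
        rw [hp1, hq1]
        have h2 : ι x + ι x = ι (co p) + ι (co q) := by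
          rw [← map_add, hx, map_add]
        calc y0 + ι x + (y0 + ι x) = y0 + y0 + (ι x + ι x) := by abel
          _ = y0 + y0 + (ι (co p) + ι (co q)) := by rw [h2]
          _ = _ := by abel
      rw [hD]
      have h3 := (hD _).1 (hWD p ((hW2 _).1 hp).1)
      have h4 := (hD _).1 (hWD q ((hW2 _).1 hq).1)
      have h5 : cst (y0 + ι x) = (1 / 2 : ℝ) • cst p.1 + (1 / 2 : ℝ) • cst q.1 := by
        rw [← smul_add, ← cst_add p.1 q.1, ← h1, cst_add (y0 + ι x) (y0 + ι x), smul_add,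
          ← add_smul]
        norm_num
      rw [h5]
      exact hP h3 h4 (by norm_num) (by norm_num) (by norm_num)
    · rw [hp1, hq1]
      have h2 : ι x + ι x = ι (co p) + ι (co q) := by
        rw [← map_add, hx, map_add]
      calc y0 + ι x + (y0 + ι x) = y0 + y0 + (ι x + ι x) := by abel
        _ = y0 + y0 + (ι (co p) + ι (co q)) := by rw [h2]
        _ = _ := by abel
  obtain ⟨z, hzD, F, hF, hpig2⟩ := pig' (W2 ×ˢ W2) D (fun z pq => z + z = pq.1.1 + pq.2.1) hmidD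
    (hW2ne.product hW2ne)
  rw [Finset.card_product] at hpig2
  have hFpos : 0 < F.card := by
    rcases Nat.eq_zero_or_pos F.card with h | h
    · rw [h, mul_zero] at hpig2
      have := Nat.mul_pos hW2pos hW2pos
      omega
    · exact h
  -- `z` lies in the coset
  obtain ⟨⟨p0, q0⟩, hpq0⟩ := Finset.card_pos.1 hFpos
  obtain ⟨hpq0a, hpq0b⟩ := (hF _).1 hpq0
  obtain ⟨hp0, hq0⟩ := Finset.mem_product.1 hpq0a
  obtain ⟨xz, hxz⟩ := hmid p0 hp0 q0 hq0
  have hz : z = y0 + ι xz := by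
    apply double_inj
    simp only at hpq0b
    rw [hpq0b, hco p0 ((hW2 _).1 hp0).1, hco q0 ((hW2 _).1 hq0).1]
    have h2 : ι xz + ι xz = ι (co p0) + ι (co q0) := by
      rw [← map_add, hxz, map_add]
    calc y0 + ι (co p0) + (y0 + ι (co q0)) = y0 + y0 + (ι (co p0) + ι (co q0)) := by abel
      _ = y0 + y0 + (ι xz + ι xz) := by rw [h2]
      _ = _ := by abel
  set U := W2.filter (fun p => z + z - p.1 ∈ D) with hU
  have hFU : F.card ≤ U.card * Nat.card H := by
    have : Fintype H := Fintype.ofFinite H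
    rw [Nat.card_eq_fintype_card, ← Finset.card_univ, ← Finset.card_product]
    refine Finset.card_le_card_of_injOn
      (fun pq : ((Fin n → ℤ) × H) × ((Fin n → ℤ) × H) => (pq.1, pq.2.2)) ?_ ?_
    · rintro ⟨p, q⟩ hpq
      obtain ⟨ha, hb⟩ := (hF _).1 hpq
      obtain ⟨hp, hq⟩ := Finset.mem_product.1 ha
      refine Finset.mem_coe.2 (Finset.mem_product.2 ⟨Finset.mem_filter.2 ⟨hp, ?_⟩,
        Finset.mem_univ _⟩)
      have h1 : z + z - p.1 = q.1 := by
        simp only at hb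
        rw [hb]; abel
      rw [h1]
      exact hWD q ((hW2 _).1 hq).1
    · rintro ⟨p, q⟩ hpq ⟨p', q'⟩ hpq' heq
      obtain ⟨-, hb⟩ := (hF _).1 (Finset.mem_coe.1 hpq)
      obtain ⟨-, hb'⟩ := (hF _).1 (Finset.mem_coe.1 hpq')
      simp only [Prod.mk.injEq] at heq hb hb'
      obtain ⟨h1, h2⟩ := heq
      subst h1
      have h3 : q.1 = q'.1 := add_left_cancel (hb.symm.trans hb')
      rw [Prod.ext h3 h2]
  have hUpos : 0 < U.card := by
    rcases Nat.eq_zero_or_pos U.card with h | h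
    · rw [h, zero_mul] at hFU; omega
    · exact h
  refine ⟨xz, U, (Finset.filter_subset _ _).trans (fun p hp => ((hW2 _).1 hp).1),
    Finset.card_pos.1 hUpos, hz ▸ hzD, ?_, ?_⟩
  · intro p hp
    obtain ⟨hpW2, hpD⟩ := Finset.mem_filter.1 hp
    have hp1 := hco p ((hW2 _).1 hpW2).1
    constructor
    · rw [hp1, map_sub]; abel
    · have h1 : y0 + ι xz - ι (co p - xz) = z + z - p.1 := by
        rw [hp1, hz, map_sub]; abel
      rw [h1]
      exact hpD
  · calc W.card * W.card ≤ (2 ^ r * W2.card) * (2 ^ r * W2.card) := Nat.mul_le_mul hpig hpig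
      _ = 4 ^ r * (W2.card * W2.card) := by
          rw [show (4 : ℕ) = 2 * 2 by norm_num, mul_pow]; ring
      _ ≤ 4 ^ r * (D.card * F.card) := Nat.mul_le_mul_left _ hpig2
      _ ≤ 4 ^ r * (D.card * (U.card * Nat.card H)) := by gcongr
      _ = 4 ^ r * (D.card * Nat.card H) * U.card := by ring

end TH388.CVX
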