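import Pool.Agent.TH388.CVX.Main

/-! Steps of the proof (helper388). -/

set_option autoImplicit false
open scoped Pointwise

namespace TH388.CVX

open scoped Classical in
lemma step1 {Γ : Type*} [AddCommGroup Γ] {K L : ℝ} {A : Finset Γ}
    (hA : A.Nonempty) (hK : ((A + A).card : ℝ) ≤ K * A.card) {n : ℕ} (D : Set (Fin n → ℤ))
    (ψ : (Fin n → ℤ) →+ Γ) (H : AddSubgroup Γ)
    (hprop : ∀ a b c d : Fin n → ℤ, a ∈ D → b ∈ D → c ∈ D → d ∈ D →
      ψ a + ψ b - ψ c - ψ d ∈ H → a + b = c + d)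
    (X : Finset Γ) (hX : (X.card : ℝ) ≤ L)
    (hcov : ∀ a ∈ A, ∃ x ∈ X, ∃ v ∈ D, ∃ h ∈ H, a = x + ψ v + h) :
    ∃ (x0 : Γ) (W : Finset ((Fin n → ℤ) × H)), W.Nonempty ∧ (∀ p ∈ W, p.1 ∈ D) ∧
      (∀ p ∈ W, x0 + ψ p.1 + (p.2 : Γ) ∈ A) ∧
      Set.InjOn (fun p : (Fin n → ℤ) × H => x0 + ψ p.1 + (p.2 : Γ)) W ∧
      (A.card : ℝ) ≤ L * W.card ∧ ((W + W).card : ℝ) ≤ K * A.card := by
  obtain ⟨x0, hx0, hpig⟩ := pig A X (fun x a => ∃ v ∈ D, ∃ h ∈ H, a = x + ψ v + h) hcov hA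
  set A1 := A.filter (fun a => ∃ v ∈ D, ∃ h ∈ H, a = x0 + ψ v + h) with hA1
  have hrep : ∀ a ∈ A1, ∃ p : (Fin n → ℤ) × H, p.1 ∈ D ∧ a = x0 + ψ p.1 + (p.2 : Γ) := by
    intro a ha
    obtain ⟨v, hv, h, hh, he⟩ := (Finset.mem_filter.1 ha).2
    exact ⟨(v, ⟨h, hh⟩), hv, he⟩
  have hrep' : ∃ g : Γ → (Fin n → ℤ) × H, ∀ a ∈ A1, (g a).1 ∈ D ∧
      a = x0 + ψ (g a).1 + ((g a).2 : Γ) := by
    refine ⟨fun a => if h : a ∈ A1 then (hrep a h).choose else 0, ?_⟩
    intro a ha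
    simp only [dif_pos ha]
    exact (hrep a ha).choose_spec
  obtain ⟨g, hg⟩ := hrep'
  set W := A1.image g with hW
  have hginj : Set.InjOn g A1 := by
    intro a ha b hb hab
    rw [(hg a ha).2, (hg b hb).2, hab]
  have hWcard : W.card = A1.card := Finset.card_image_of_injOn hginj
  have hA1pos : 0 < A1.card := by
    rcases Nat.eq_zero_or_pos A1.card with h | h
    · rw [h, mul_zero] at hpig
      have := hA.card_pos
      omega
    · exact h
  have hWA : ∀ p ∈ W, p.1 ∈ D ∧ x0 + ψ p.1 + (p.2 : Γ) ∈ A1 := by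
    intro p hp
    obtain ⟨a, ha, rfl⟩ := Finset.mem_image.1 hp
    refine ⟨(hg a ha).1, ?_⟩
    rw [← (hg a ha).2]
    exact ha
  refine ⟨x0, W, ?_, fun p hp => (hWA p hp).1, fun p hp => (Finset.mem_filter.1 (hWA p hp).2).1,
    ?_, ?_, ?_⟩
  · rw [← Finset.card_pos, hWcard]; exact hA1pos
  · intro p hp q hq hpq
    obtain ⟨a, ha, rfl⟩ := Finset.mem_image.1 (Finset.mem_coe.1 hp)
    obtain ⟨b, hb, rfl⟩ := Finset.mem_image.1 (Finset.mem_coe.1 hq)
    have h1 : a = b := by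
      rw [(hg a ha).2, (hg b hb).2]
      exact hpq
    rw [h1]
  · rw [hWcard]
    have h1 : (A.card : ℝ) ≤ X.card * A1.card := by exact_mod_cast hpig
    have h2 : (0 : ℝ) ≤ A1.card := by positivity
    nlinarith
  · refine le_trans ?_ hK
    have h1 : ∀ z ∈ W + W, x0 + x0 + ψ z.1 + (z.2 : Γ) ∈ A + A := by
      intro z hz
      obtain ⟨p, hp, q, hq, rfl⟩ := Finset.mem_add.1 hz
      have h2 := Finset.add_mem_add (Finset.mem_filter.1 (hWA p hp).2).1
        (Finset.mem_filter.1 (hWA q hq).2).1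
      have h3 : x0 + x0 + ψ (p + q).1 + ((p + q).2 : Γ) =
          (x0 + ψ p.1 + (p.2 : Γ)) + (x0 + ψ q.1 + (q.2 : Γ)) := by
        rw [Prod.fst_add, Prod.snd_add, map_add, AddSubgroup.coe_add]
        abel
      rw [h3]
      exact h2
    have h2 : Set.InjOn (fun z : (Fin n → ℤ) × H => x0 + x0 + ψ z.1 + (z.2 : Γ))
        (W + W : Finset ((Fin n → ℤ) × H)) := by
      intro z hz w hw hzw
      obtain ⟨p, hp, q, hq, rfl⟩ := Finset.mem_add.1 (Finset.mem_coe.1 hz)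
      obtain ⟨p', hp', q', hq', rfl⟩ := Finset.mem_add.1 (Finset.mem_coe.1 hw)
      simp only [Prod.fst_add, Prod.snd_add, map_add, AddSubgroup.coe_add] at hzw
      have h3 : ψ p.1 + ψ q.1 - ψ p'.1 - ψ q'.1 =
          (((p'.2 + q'.2 - p.2 - q.2 : H)) : Γ) := by
        rw [AddSubgroup.coe_sub, AddSubgroup.coe_sub, AddSubgroup.coe_add]
        have h4 : x0 + x0 + (ψ p.1 + ψ q.1) + ((p.2 : Γ) + q.2) -
            (x0 + x0 + (ψ p'.1 + ψ q'.1) + ((p'.2 : Γ) + q'.2)) = 0 := by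
          rw [hzw, sub_self]
        have h5 : ψ p.1 + ψ q.1 - ψ p'.1 - ψ q'.1 - ((p'.2 : Γ) + q'.2 - p.2 - q.2) =
            x0 + x0 + (ψ p.1 + ψ q.1) + ((p.2 : Γ) + q.2) -
            (x0 + x0 + (ψ p'.1 + ψ q'.1) + ((p'.2 : Γ) + q'.2)) := by abel
        rw [h4, sub_eq_zero] at h5
        exact h5
      have h6 := hprop _ _ _ _ (hWA p hp).1 (hWA q hq).1 (hWA p' hp').1 (hWA q' hq').1
        (h3 ▸ (p'.2 + q'.2 - p.2 - q.2 : H).2)
      have h7 : (p.2 : Γ) + q.2 = (p'.2 : Γ) + q'.2 := by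
        have h8 : ψ p.1 + ψ q.1 = ψ p'.1 + ψ q'.1 := by
          rw [← map_add, h6, map_add]
        rw [h8] at hzw
        exact add_left_cancel hzw
      refine Prod.ext ?_ ?_
      · exact h6
      · exact Subtype.ext (by simpa using h7)
    exact_mod_cast Finset.card_le_card_of_injOn _ (fun z hz => h1 z hz) h2

open scoped Classical in
lemma step2 {Γ : Type*} [AddCommGroup Γ] {n : ℕ} (H : AddSubgroup Γ) [Finite H]
    {K : ℝ} (W : Finset ((Fin n → ℤ) × H)) (hW : W.Nonempty)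
    (hK : ((W + W).card : ℝ) ≤ K * W.card) :
    ∃ (r : ℕ) (ι : (Fin r → ℤ) →ₗ[ℤ] (Fin n → ℤ)) (y0 : Fin n → ℤ)
      (W' : Finset ((Fin n → ℤ) × H)) (co : (Fin n → ℤ) × H → (Fin r → ℤ)),
      (r : ℝ) ≤ 480 * Real.log K + 1 ∧ Function.Injective ι ∧ W' ⊆ W ∧ W'.Nonempty ∧
      (∀ p ∈ W', p.1 = y0 + ι (co p)) ∧ (W.card : ℝ) ≤ K ^ 185 * W'.card := by
  obtain ⟨P, S, T, hP, hS, -, hT, hcov⟩ := weak_marton' hW hK
  obtain ⟨r, ι, hr, hinj, hι⟩ := exists_coord (S.image Prod.fst)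
  have hr' : (r : ℝ) ≤ 480 * Real.log K + 1 := by
    refine le_trans ?_ hS
    exact_mod_cast hr.trans Finset.card_image_le
  have hmem : ∀ x ∈ P ⊔ AddSubgroup.closure (S : Set ((Fin n → ℤ) × H)), ∃ y, ι y = x.1 := by
    intro x hx
    set V := Submodule.span ℤ ((S.image Prod.fst : Finset (Fin n → ℤ)) : Set (Fin n → ℤ)) with hV
    have h1 : P ⊔ AddSubgroup.closure (S : Set ((Fin n → ℤ) × H)) ≤
        V.toAddSubgroup.comap (AddMonoidHom.fst (Fin n → ℤ) H) := by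
      refine sup_le ?_ ?_
      · intro p hp
        have h2 : Nat.card P • (⟨p, hp⟩ : P) = 0 := card_nsmul_eq_zero'
        have h3 : Nat.card P • p = 0 := by
          have := congrArg P.subtype h2
          rwa [map_nsmul, map_zero] at this
        have h4 : Nat.card P • p.1 = 0 := by
          have := congrArg Prod.fst h3
          simpa using this
        have h5 : p.1 = 0 := by
          rcases smul_eq_zero.1 h4 with h | h
          · exact absurd h Nat.card_pos.ne'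
          · exact h
        rw [AddSubgroup.mem_comap]
        change p.1 ∈ V
        rw [h5]
        exact V.zero_mem
      · rw [AddSubgroup.closure_le]
        intro s hs
        change s.1 ∈ V
        exact Submodule.subset_span (Finset.mem_coe.2 (Finset.mem_image_of_mem _ hs))
    have h2 : x.1 ∈ V := h1 hx
    exact (hι _).1 h2
  have hcov' : ∀ a ∈ W, ∃ t ∈ T, ∃ y, ι y = a.1 - t.1 := by
    intro a ha
    obtain ⟨t, ht, o, ⟨m, hm, hmo⟩, hx⟩ := hcov a ha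
    refine ⟨t, ht, ?_⟩
    obtain ⟨y, hy⟩ := hmem _ hx
    refine ⟨y, ?_⟩
    have h1 : m • o.1 = 0 := by
      have := congrArg Prod.fst hmo
      simpa using this
    have h2 : o.1 = 0 := by
      rcases smul_eq_zero.1 h1 with h | h
      · subst h; simp at hm
      · exact h
    rw [hy]
    simp [h2]
  obtain ⟨t0, ht0, hpig⟩ := pig W T (fun t a => ∃ y, ι y = a.1 - t.1) hcov' hW
  refine ⟨r, ι, t0.1, W.filter (fun a => ∃ y, ι y = a.1 - t0.1),
    fun a => if h : ∃ y, ι y = a.1 - t0.1 then h.choose else 0, hr', hinj,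
    Finset.filter_subset _ _, ?_, ?_, ?_⟩
  · rw [← Finset.card_pos]
    rcases Nat.eq_zero_or_pos (W.filter (fun a => ∃ y, ι y = a.1 - t0.1)).card with h | h
    · rw [h, mul_zero] at hpig
      have := hW.card_pos
      omega
    · exact h
  · intro p hp
    have h := (Finset.mem_filter.1 hp).2
    simp only [dif_pos h]
    rw [h.choose_spec]
    abel
  · have h1 : (W.card : ℝ) ≤ T.card * (W.filter (fun a => ∃ y, ι y = a.1 - t0.1)).card := by
      exact_mod_cast hpig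
    refine h1.trans ?_
    gcongr

end TH388.CVX
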